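import Pool.Agent.Lib.MP_2472ab_nt.Cnt

set_option autoImplicit false

open Finset

namespace Pool.Agent.Results.MP_2472ab_nt.FewExponents

open Pool.Agent.Lib.MP_2472ab_nt (TP TP_le)

/-- `n = k + m` with `k, m ≥ 1` and `2 ^ k + p_m` prime, where `p_m = Nat.nth Nat.Prime (m - 1)` is
the `m`-th prime: `n` is representable with the exponent `k`. -/
def Rep (n k : ℕ) : Prop :=
  1 ≤ k ∧ k < n ∧ (2 ^ k + Nat.nth Nat.Prime (n - k - 1)).Prime

theorem nth_inj {a b : ℕ} (h : Nat.nth Nat.Prime a = Nat.nth Nat.Prime b) : a = b :=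
  Nat.nth_injective Nat.infinite_setOfPred_prime h

theorem nth_ge (a : ℕ) : a + 2 ≤ Nat.nth Nat.Prime a := by
  induction a with
  | zero => rw [Nat.nth_prime_zero_eq_two]
  | succ a ih =>
    have h : Nat.nth Nat.Prime a < Nat.nth Nat.Prime (a + 1) :=
      Nat.nth_strictMono Nat.infinite_setOfPred_prime (Nat.lt_succ_self a)
    omega

/-- number of `n ≤ N` representable with a given exponent -/
theorem one_exp (N k : ℕ) (hN : 1 ≤ N) (hk : 1 ≤ k) :
    (open scoped Classical in ((Icc 1 N).filter (fun n => Rep n k)).card) ≤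
      (TP (Nat.nth Nat.Prime (N - 1)) (2 ^ k)).card := by
  classical
  apply card_le_card_of_injOn (fun n => Nat.nth Nat.Prime (n - k - 1))
  · intro n hn
    rw [coe_filter, Set.mem_ofPred_eq, mem_Icc] at hn
    obtain ⟨⟨h1, h2⟩, h3, h4, h5⟩ := hn
    unfold TP
    rw [coe_filter, Set.mem_ofPred_eq, mem_Icc]
    refine ⟨⟨?_, ?_⟩, ?_, ?_⟩
    · have := nth_ge (n - k - 1)
      show 1 ≤ Nat.nth Nat.Prime (n - k - 1)
      omega
    · exact (Nat.nth_monotone Nat.infinite_setOfPred_prime) (by omega)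
    · exact Nat.prime_nth_prime _
    · show (Nat.nth Nat.Prime (n - k - 1) + 2 ^ k).Prime
      rw [add_comm]; exact h5
  · intro n hn n' hn' h
    rw [coe_filter, Set.mem_ofPred_eq, mem_Icc] at hn hn'
    have := nth_inj h
    have h1 := hn.2.2.1
    have h2 := hn'.2.2.1
    omega

theorem theta_nth (N : ℕ) (hN : 1 ≤ N) :
    ∑ n ∈ (Icc 1 (Nat.nth Nat.Prime (N - 1))).filter Nat.Prime, Real.log n ≤
      N * Real.log (Nat.nth Nat.Prime (N - 1)) := by
  set P := Nat.nth Nat.Prime (N - 1) with hP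
  have h1 : ((Icc 1 P).filter Nat.Prime).card ≤ N := by
    have h2 : ((Icc 1 P).filter Nat.Prime) ⊆ (range N).image (Nat.nth Nat.Prime) := by
      intro p hp
      rw [mem_filter, mem_Icc] at hp
      rw [mem_image]
      refine ⟨Nat.count Nat.Prime p, ?_, Nat.nth_count hp.2⟩
      rw [mem_range]
      have h3 : Nat.count Nat.Prime p ≤ Nat.count Nat.Prime P := Nat.count_monotone _ hp.1.2
      rw [hP, Nat.count_nth_of_infinite Nat.infinite_setOfPred_prime] at h3
      omega
    exact (card_le_card h2).trans (card_image_le.trans (by rw [card_range]))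
  have hP1 : 1 ≤ P := by
    have := nth_ge (N - 1)
    omega
  have hl : 0 ≤ Real.log P := Real.log_natCast_nonneg P
  calc ∑ n ∈ (Icc 1 P).filter Nat.Prime, Real.log n
      ≤ ∑ n ∈ (Icc 1 P).filter Nat.Prime, Real.log P := by
        apply sum_le_sum
        intro n hn
        rw [mem_filter, mem_Icc] at hn
        exact Real.log_le_log (by exact_mod_cast hn.1.1) (by exact_mod_cast hn.1.2)
    _ = ((Icc 1 P).filter Nat.Prime).card * Real.log P := by rw [sum_const, nsmul_eq_mul]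
    _ ≤ N * Real.log P := mul_le_mul_of_nonneg_right (by exact_mod_cast h1) hl

/-- every exponent represents at most `5.5 N / log N` of the `n ≤ N` -/
theorem one_le : ∃ N₀ : ℕ, 3 ≤ N₀ ∧ ∀ N : ℕ, N₀ ≤ N → ∀ k : ℕ, 1 ≤ k →
    (open scoped Classical in (((Icc 1 N).filter (fun n => Rep n k)).card : ℝ)) ≤
      11 / 2 * (N / Real.log N) := by
  classical
  obtain ⟨X0, hX03, hX0⟩ := TP_le
  obtain ⟨C, hC, hθ⟩ := Pool.Agent.Lib.DN.pnt_theta
  have hlog : Filter.Tendsto (fun x : ℕ => Real.log x) Filter.atTop Filter.atTop :=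
    Real.tendsto_log_atTop.comp tendsto_natCast_atTop_atTop
  obtain ⟨X1, hX1⟩ := Filter.eventually_atTop.mp
    (hlog.eventually (Filter.eventually_ge_atTop (1000 * (C + 1))))
  refine ⟨max (max X0 X1) 3, le_max_right _ _, fun N hN k hk => ?_⟩
  have hNX0 : X0 ≤ N := le_trans (le_trans (le_max_left _ _) (le_max_left _ _)) hN
  have hNX1 : X1 ≤ N := le_trans (le_trans (le_max_right _ _) (le_max_left _ _)) hN
  have hN3 : 3 ≤ N := le_trans (le_max_right _ _) hN
  have hNr : (3 : ℝ) ≤ N := by exact_mod_cast hN3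
  set P := Nat.nth Nat.Prime (N - 1) with hP
  have hPN : N < P := by
    have := nth_ge (N - 1)
    omega
  have hPr : (N : ℝ) < P := by exact_mod_cast hPN
  have h1 := one_exp N k (by omega) hk
  have h2 := hX0 P (by omega) k hk
  have h3 := theta_nth N (by omega)
  have h4 := hθ P (by linarith)
  rw [Nat.floor_natCast] at h4
  set L := Real.log P with hL
  have hLN : Real.log N ≤ L := Real.log_le_log (by linarith) hPr.le
  have hLC : 1000 * (C + 1) ≤ L := (hX1 N hNX1).trans hLN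
  have hL1 : 1000 ≤ L := by linarith
  have hlN : 0 < Real.log N := Real.log_pos (by linarith)
  have hL0 : 0 < L := by linarith
  have h5 : (P : ℝ) - C * P / L ^ 2 ≤ N * L := by
    have := (abs_le.1 h4).1
    linarith
  have h6 : C * P / L ^ 2 ≤ 0.001 * P := by
    rw [div_le_iff₀ (by positivity)]
    have h7 : C ≤ 0.001 * L ^ 2 := by
      have h8 : C ≤ L := by linarith
      have h9 : L * 1000 ≤ L * L := mul_le_mul_of_nonneg_left hL1 hL0.le
      have h10 : L ^ 2 = L * L := by ring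
      rw [h10]
      linarith
    have hP0 : (0 : ℝ) ≤ P := by linarith
    have h8 := mul_le_mul_of_nonneg_right h7 hP0
    have e1 : 0.001 * L ^ 2 * (P : ℝ) = 0.001 * P * L ^ 2 := by ring
    rw [← e1]
    exact h8
  have h7 : 0.999 * (P : ℝ) ≤ N * L := by linarith
  have h8 : 5.475 * (P : ℝ) / L ^ 2 ≤ 11 / 2 * (N / Real.log N) := by
    have e1 : 5.475 * (P : ℝ) / L ^ 2 ≤ 11 / 2 * (N / L) := by
      rw [div_le_iff₀ (by positivity)]
      have e2 : 11 / 2 * ((N : ℝ) / L) * L ^ 2 = 11 / 2 * (N * L) := by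
        field_simp
      rw [e2]
      linarith
    refine e1.trans (mul_le_mul_of_nonneg_left ?_ (by norm_num))
    exact div_le_div_of_nonneg_left (by linarith) hlN hLN
  have h9 : (((Icc 1 N).filter (fun n => Rep n k)).card : ℝ) ≤ ((TP P (2 ^ k)).card : ℝ) := by
    exact_mod_cast h1
  exact h9.trans (h2.trans h8)

open scoped Classical in
/-- Part 1: for large `N`, every set `K` of exponents serves at most `(11/2) #K N / log N` of the
`n ≤ N`. Part 2: hence almost no `n` is representable with an exponent `k ≤ ψ n`, if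
`ψ n = o(log n)`. -/
theorem result :
    (∃ N₀ : ℕ, ∀ N : ℕ, N₀ ≤ N → ∀ K : Finset ℕ,
      (((Icc 1 N).filter (fun n => ∃ k ∈ K, Rep n k)).card : ℝ) ≤
        11 / 2 * K.card * (N / Real.log N)) ∧
    ∀ ψ : ℕ → ℝ, Filter.Tendsto (fun n : ℕ => ψ n / Real.log n) Filter.atTop (nhds 0) →
      Filter.Tendsto (fun N : ℕ =>
        (((Icc 1 N).filter (fun n => ∃ k : ℕ, (k : ℝ) ≤ ψ n ∧ Rep n k)).card : ℝ) / N)
        Filter.atTop (nhds 0) := by
  obtain ⟨N₀, hN03, h⟩ := one_le
  have part1 : ∀ N : ℕ, N₀ ≤ N → ∀ K : Finset ℕ,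
      (((Icc 1 N).filter (fun n => ∃ k ∈ K, Rep n k)).card : ℝ) ≤
        11 / 2 * K.card * (N / Real.log N) := by
    intro N hN K
    have h1 : ((Icc 1 N).filter (fun n => ∃ k ∈ K, Rep n k)) ⊆
        (K.filter (fun k => 1 ≤ k)).biUnion (fun k => (Icc 1 N).filter (fun n => Rep n k)) := by
      intro n hn
      rw [mem_filter] at hn
      obtain ⟨hn1, k, hk, hr⟩ := hn
      rw [mem_biUnion]
      exact ⟨k, mem_filter.2 ⟨hk, hr.1⟩, mem_filter.2 ⟨hn1, hr⟩⟩
    have h2 := (card_le_card h1).trans card_biUnion_le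
    have h3 : (((Icc 1 N).filter (fun n => ∃ k ∈ K, Rep n k)).card : ℝ) ≤
        ∑ k ∈ K.filter (fun k => 1 ≤ k), (((Icc 1 N).filter (fun n => Rep n k)).card : ℝ) := by
      exact_mod_cast h2
    refine h3.trans ?_
    have h4 : ∑ k ∈ K.filter (fun k => 1 ≤ k), (((Icc 1 N).filter (fun n => Rep n k)).card : ℝ) ≤
        ∑ k ∈ K.filter (fun k => 1 ≤ k), 11 / 2 * ((N : ℝ) / Real.log N) :=
      sum_le_sum (fun k hk => h N hN k (mem_filter.1 hk).2)
    refine h4.trans ?_
    rw [sum_const, nsmul_eq_mul]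
    have h5 : ((K.filter (fun k => 1 ≤ k)).card : ℝ) ≤ K.card := by
      exact_mod_cast card_filter_le _ _
    have h6 : 0 ≤ (N : ℝ) / Real.log N := div_nonneg (Nat.cast_nonneg _) (Real.log_natCast_nonneg _)
    nlinarith
  refine ⟨⟨N₀, part1⟩, fun ψ hψ => ?_⟩
  rw [Metric.tendsto_atTop]
  intro ε hε
  -- exponents up to `η log N`
  set η : ℝ := ε / 24 with hη
  have hη0 : 0 < η := by positivity
  obtain ⟨n₁, hn₁⟩ := (Metric.tendsto_atTop.1 hψ) η hη0
  have hlog : Filter.Tendsto (fun x : ℕ => Real.log x) Filter.atTop Filter.atTop :=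
    Real.tendsto_log_atTop.comp tendsto_natCast_atTop_atTop
  obtain ⟨N₁, hN₁⟩ := Filter.eventually_atTop.mp
    ((hlog.eventually (Filter.eventually_ge_atTop (1 / η))).and
      (tendsto_natCast_atTop_atTop (R := ℝ) |>.eventually
        (Filter.eventually_ge_atTop (4 * ((n₁ : ℝ) + 3) / ε))))
  refine ⟨max N₀ N₁, fun N hN => ?_⟩
  have hN0 : N₀ ≤ N := (le_max_left _ _).trans hN
  have hN3 : 3 ≤ N := hN03.trans hN0
  obtain ⟨hlN, hNε⟩ := hN₁ N ((le_max_right _ _).trans hN)
  have hNr : (3 : ℝ) ≤ N := by exact_mod_cast hN3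
  have hl0 : 0 < Real.log N := Real.log_pos (by linarith)
  set K : Finset ℕ := Icc 1 ⌊η * Real.log N⌋₊ with hK
  have hKc : (K.card : ℝ) ≤ η * Real.log N := by
    rw [hK, Nat.card_Icc]
    have := Nat.floor_le (a := η * Real.log N) (by positivity)
    simpa using this
  have hsub : ((Icc 1 N).filter (fun n => ∃ k : ℕ, (k : ℝ) ≤ ψ n ∧ Rep n k)) ⊆
      Icc 1 (n₁ + 3) ∪ ((Icc 1 N).filter (fun n => ∃ k ∈ K, Rep n k)) := by
    intro n hn
    rw [mem_filter, mem_Icc] at hn
    obtain ⟨⟨hn1, hn2⟩, k, hk, hr⟩ := hn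
    rw [mem_union]
    by_cases hns : n ≤ n₁ + 3
    · left; rw [mem_Icc]; exact ⟨hn1, hns⟩
    · right
      push Not at hns
      rw [mem_filter, mem_Icc]
      refine ⟨⟨hn1, hn2⟩, k, ?_, hr⟩
      rw [hK, mem_Icc]
      refine ⟨hr.1, Nat.le_floor ?_⟩
      have h1 := hn₁ n (by omega)
      rw [Real.dist_eq, sub_zero] at h1
      have hnr : (1 : ℝ) < n := by exact_mod_cast (by omega : 1 < n)
      have hln : 0 < Real.log n := Real.log_pos hnr
      have h2 : ψ n / Real.log n < η := (le_abs_self _).trans_lt h1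
      rw [div_lt_iff₀ hln] at h2
      have h3 : Real.log n ≤ Real.log N := Real.log_le_log (by linarith) (by exact_mod_cast hn2)
      have h4 : η * Real.log n ≤ η * Real.log N := mul_le_mul_of_nonneg_left h3 hη0.le
      linarith
  have hcard := (card_le_card hsub).trans (card_union_le _ _)
  rw [Nat.card_Icc] at hcard
  have hcard' : (((Icc 1 N).filter (fun n => ∃ k : ℕ, (k : ℝ) ≤ ψ n ∧ Rep n k)).card : ℝ) ≤
      ((n₁ : ℝ) + 3) + (((Icc 1 N).filter (fun n => ∃ k ∈ K, Rep n k)).card : ℝ) := by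
    have : n₁ + 3 + 1 - 1 = n₁ + 3 := by omega
    rw [this] at hcard
    exact_mod_cast hcard
  have hp := part1 N hN0 K
  have h5 : 11 / 2 * (K.card : ℝ) * (N / Real.log N) ≤ 11 / 2 * η * N := by
    have h6 : 0 ≤ (N : ℝ) / Real.log N := by positivity
    calc 11 / 2 * (K.card : ℝ) * (N / Real.log N)
        ≤ 11 / 2 * (η * Real.log N) * (N / Real.log N) := by
          apply mul_le_mul_of_nonneg_right _ h6
          linarith
      _ = 11 / 2 * η * N := by field_simp
  have h7 : (n₁ : ℝ) + 3 ≤ ε / 4 * N := by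
    rw [div_le_iff₀ hε] at hNε
    linarith
  rw [Real.dist_eq, sub_zero, abs_of_nonneg (by positivity), div_lt_iff₀ (by linarith)]
  have h8 : 11 / 2 * η * N ≤ ε / 4 * N := by
    rw [hη]
    have : (0 : ℝ) ≤ ε * N := by positivity
    linarith
  have h9 : 0 < ε * N := by positivity
  linarith

end Pool.Agent.Results.MP_2472ab_nt.FewExponents
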